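import Mathlib
import Pool.Agent.H443.VF.App
import Pool.Graph.R_seed8.W245.PB.Gen

/-!
# Singular matrices of logarithms: adjoining the logarithms of all conjugates of almost all integers
of number fields

Let `K_1, ..., K_k` be number fields (not necessarily distinct) and let `b_j` be a basis of `K_j` over
`ℚ`. For vectors `x_j` of integers put `α_j = ∑ x_ji b_ji ∈ K_j`; if `b_j` is an integral basis these
are the integers of `K_j`. Let `V` be a rational space of complex numbers of dimension at most `m` for
which the assertion of Q1 holds, for all sizes of the matrices (for example `V = 0`, or any space of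
logarithms of algebraic numbers of dimension at most two; the elements of `V` need not be logarithms).
We show that for almost all `(x_1, ..., x_k)` and for all the determinations of the logarithms the space

  `V' = V + ∑ ℚ log σ(α_j)`,  `σ` ALL the embeddings of `K_j` into `ℂ`, `j = 1, ..., k`,

has dimension `dim V + [K_1 : ℚ] + ... + [K_k : ℚ]`, and that Q1 holds for all the matrices, of all sizes,
with entries in `V'`. The number of exceptional `(x_1, ..., x_k)` with `|x_ji| ≤ N_j` is at most
`ε ∏ (2 N_j + 1) ^ [K_j : ℚ]` if all the `N_j` are at least `N₀`, and `N₀` depends neither on `V` nor on the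
ratios of the `N_j`.

So for example for almost all integers `α` of a given number field `K` all the singular matrices with
entries in the space generated by `2 π i` and by the numbers `log σ(α)`, `σ : K → ℂ`, satisfy the conclusion
of Q1.

The proof.
* `VF.Cube`, `VF.Wide`: a large cube of vectors of logarithms with linearly independent entries has a vertex
  which satisfies no polynomial relation of degree `≤ D` with coefficients in a given space of dimension
  `≤ n` over the algebraic numbers, with `n` arbitrary (evaluation determinants, the hyperplane case of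
  the theorem of Waldschmidt and Roy, the theorems of Baker and Brumer).
* `VF.Val`: the conjugates of the ratios of the generators in a multiplicative cube of integers of `K`
  (constructed in `NF.Cub`) are multiplicatively independent in each field of characteristic zero, also
  modulo a prime number.
* `VF.Sys`, `VF.Tup`: almost all integers, and almost all tuples, for an abstract logarithm; `VF.CInst`: the
  complex logarithm and the Iwasawa logarithm.
* `VF.Sing`, `VF.App`: a determinant which vanishes is identically zero as a polynomial in the new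
  logarithms, and identically singular families of matrices are reduced to `V` (`Y921.SR.Pencil`).
-/

set_option autoImplicit false

open NumberField Module

namespace Pool.Agent.Results.MP_1f047c_nt.ConjugatesInNumberFields

/-- Every singular square matrix, of any size, with entries in `V` satisfies the conclusion of Q1. -/
def Good (V : Submodule ℚ ℂ) : Prop :=
  ∀ n : ℕ, 1 ≤ n → ∀ M : Matrix (Fin n) (Fin n) ℂ, (∀ i j, M i j ∈ V) → M.det = 0 →
    ∃ w v : Fin n → ℚ, w ≠ 0 ∧ v ≠ 0 ∧ ∑ i, ∑ j, (w i : ℂ) * M i j * (v j : ℂ) = 0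

theorem good_iff (V : Submodule ℚ ℂ) : Good V ↔ Pool.Agent.Y921.SR.ZeroProp V := by
  have h : ∀ (N : ℕ) (M : Matrix (Fin N) (Fin N) ℂ) (w v : Fin N → ℚ),
      ∑ i, ∑ j, (w i : ℂ) * M i j * (v j : ℂ) = ∑ i, ∑ j, (w i * v j) • M i j := by
    intro N M w v
    refine Finset.sum_congr rfl fun i _ => Finset.sum_congr rfl fun j _ => ?_
    rw [Rat.smul_def]
    push_cast
    ring
  unfold Good Pool.Agent.Y921.SR.ZeroProp
  simp only [h]

theorem small_complex (V : Submodule ℚ ℂ) [Module.Finite ℚ V] (h2 : finrank ℚ V ≤ 2)
    (hV : ∀ z ∈ V, IsAlgebraic ℚ (Complex.exp z)) : Good V := by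
  apply Pool.Agent.W245.PB.gen_small V _ h2
  intro x hx y hy hli halg
  have h1 := Pool.Agent.K3h28.NF.baker_indep ![x, y] (by
    intro i
    fin_cases i
    · exact hV x hx
    · exact hV y hy) hli
  have hy0 : y ≠ 0 := by
    have := hli.ne_zero 1
    simpa using this
  rw [LinearIndependent.pair_iff] at h1
  have h3 := h1 (-1) ⟨x / y, mem_algebraicClosure_iff.2 halg⟩ (by
    rw [Algebra.smul_def, Algebra.smul_def]
    change algebraMap _ ℂ (-1) * x + (x / y) * y = 0
    rw [map_neg, map_one]
    field_simp
    ring)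
  exact absurd h3.1 (by simp)

/-- The element `∑ x_i b_i` of the number field `K`. -/
noncomputable def elt {K : Type} [Field K] [NumberField K] {ι : Type} [Fintype ι]
    (b : Module.Basis ι ℚ K) (x : ι → ℤ) : K := ∑ i, (x i : K) * b i

/-- The numbers `l z` are logarithms (any determinations) of all the conjugates `σ(α_j)`, where `σ`
runs through all the embeddings of `K j` into `ℂ`, for all `j`. -/
def IsLogs {k : ℕ} {K : Fin k → Type} [∀ j, Field (K j)] (α : ∀ j, K j)
    (l : (Σ j : Fin k, (K j →+* ℂ)) → ℂ) : Prop :=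
  ∀ z, Complex.exp (l z) = z.2 (α z.1)

/-- The tuples of nonzero vectors of integers, the entries of `x j` being bounded by `N j`. -/
def Box {k : ℕ} (ι : Fin k → Type) (N : Fin k → ℕ) : Set (∀ j, ι j → ℤ) :=
  {x | ∀ j, x j ≠ 0 ∧ ∀ i, |x j i| ≤ (N j : ℤ)}

/-- **Main result.** -/
theorem result (k m : ℕ) (K : Fin k → Type) [∀ j, Field (K j)] [∀ j, NumberField (K j)]
    (ι : Fin k → Type) [∀ j, Fintype (ι j)] (b : ∀ j, Module.Basis (ι j) ℚ (K j))
    (ε : ℝ) (hε : 0 < ε) :
    ∃ N₀ : ℕ, ∀ N : Fin k → ℕ, (∀ j, N₀ ≤ N j) →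
      ∀ V : Submodule ℚ ℂ, Module.Finite ℚ V → finrank ℚ V ≤ m →
        (Good V ∨ (finrank ℚ V ≤ 2 ∧ ∀ z ∈ V, IsAlgebraic ℚ (Complex.exp z))) →
        ({x ∈ Box ι N | ∃ l, IsLogs (fun j => elt (b j) (x j)) l ∧
            ¬ (finrank ℚ (V ⊔ Submodule.span ℚ (Set.range l) : Submodule ℚ ℂ) =
                finrank ℚ V + ∑ j, finrank ℚ (K j) ∧
              Good (V ⊔ Submodule.span ℚ (Set.range l)))}.ncard : ℝ) ≤
          ε * ∏ j, (2 * (N j : ℝ) + 1) ^ finrank ℚ (K j) := by
  classical
  obtain ⟨N₀, hN₀⟩ := Pool.Agent.H443.VF.ext K ι b m ε hε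
  refine ⟨N₀, fun N hN => ?_⟩
  intro V hVf hVm hV
  have hV' : Good V := hV.elim id fun h => small_complex V h.1 h.2
  have hsub : {x ∈ Box ι N | ∃ l, IsLogs (fun j => elt (b j) (x j)) l ∧
            ¬ (finrank ℚ (V ⊔ Submodule.span ℚ (Set.range l) : Submodule ℚ ℂ) =
                finrank ℚ V + ∑ j, finrank ℚ (K j) ∧
              Good (V ⊔ Submodule.span ℚ (Set.range l)))} ⊆
      ((Fintype.piFinset fun j => Pool.Agent.H443.VF.box (ι j) (N j) :
        Finset (∀ j, ι j → ℤ)) : Set (∀ j, ι j → ℤ)) := by
    intro x hx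
    rw [Finset.mem_coe, Fintype.mem_piFinset]
    intro j
    rw [Pool.Agent.H443.VF.mem_box]
    exact (hx.1 j).2
  have hfin := (Finset.finite_toSet _).subset hsub
  rw [Set.ncard_eq_toFinset_card _ hfin]
  refine hN₀ N hN ℂ Pool.Agent.H443.VF.cSys ℚ (fun c => isAlgebraic_algebraMap c) V hVf hVm _ ?_ ?_
  · intro x hx
    exact Finset.mem_coe.1 (hsub ((Set.Finite.mem_toFinset _).1 hx))
  · intro x hx
    obtain ⟨hx0, l, hl, hno⟩ := (Set.Finite.mem_toFinset _).1 hx
    refine ⟨fun j => (hx0 j).1, l, ?_,
      fun h => hno ⟨h.1, (good_iff _).2 (h.2.1 ((good_iff V).1 hV'))⟩⟩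
    intro z
    have h3 : z.2 (Pool.Agent.H443.VF.elt (b z.1) (x z.1)) ≠ 0 := by
      show z.2 (elt (b z.1) (x z.1)) ≠ 0
      rw [← hl z]
      exact Complex.exp_ne_zero _
    have h4 : Complex.exp (l z) =
        Complex.exp (Complex.log (z.2 (Pool.Agent.H443.VF.elt (b z.1) (x z.1)))) := by
      rw [Complex.exp_log h3]
      exact hl z
    exact Complex.exp_eq_exp_iff_exists_int.1 h4

end Pool.Agent.Results.MP_1f047c_nt.ConjugatesInNumberFields
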