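import Pool.Agent.H575.GK.Prod
import Pool.Graph.R_pool_sql_team_seeded_3997aac3.Q7.LK.Uni

/-!
# The Gross–Kuz'min conjecture for most Kummer extensions of odd prime degree

Let `p` be an odd prime and `F` any number field which contains a primitive `p`-th root of unity. For a number field `K` let `g`
be the number of the primes `P` of `K` above `p` and `λ_P(x) = log_p N_(K_P / ℚ_p)(x)`, an element of the space `𝓛_p` of the
`p`-adic logarithms of algebraic numbers. The vectors `(λ_P(x))`, `x` a `p`-unit of `K`, span a space of dimension `≤ g - 1`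
over `ℂ_p` (the sum of the coordinates is `log_p N_(K/ℚ)(x) = log_p (±p^k) = 0`), and the Gross–Kuz'min conjecture, one of the
consequences of the assertion of Q2 named on the page, says that the dimension is `g - 1`. The defect `δ(K)` is the difference.

We consider the cyclic extensions `L = F(d^(1/p))` of degree `p` with prescribed completions at all places above the prime
numbers `≤ y` (those of `F(d₀^(1/p))`), and with prescribed orders `z_0, …, z_(k-1)` modulo `p`, different from `0`, of `d` at `k`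
further primes `q_0, …, q_(k-1)`, of norms `≤ X_0, …, X_(k-1)` (the extension is unramified at all other primes), for large `k`,
`X_0`, then `X_1` large in terms of `X_0`, and so on. Let `r` be the number of the complex places of `F` and
`β = p^(-r) / (p - 1)`.

(1) The mean of `p^t - 1`, `t = ⌈(δ(L) - δ(F)) / (p - 1)⌉`, over these fields is at most `p^(-r) + ε`. In particular the
share of the `L` with `δ(L) > δ(F)` is at most `β + ε`, and the share of those with `δ(L) > δ(F) + (p - 1) (t - 1)` at most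
`(p^(-r) + ε) / (p^t - 1)`.

(2) If `F` satisfies the Gross–Kuz'min conjecture at `p` (for example if `F/ℚ` is abelian: Greenberg), then the share of the `L`
which satisfy it is at least `1 - β - ε`. Here `β ≤ p^(-(p-1)/2) / (p - 1)`, so for example `1 - β ≥ 5/6` for `p = 3` and
`1 - β ≥ 99/100` for `p = 5`.

Proof. The group of the `p`-units of `L` of relative norm `1` has the rank `(p - 1) (r + s)`, `s` the number of the primes
above `p` which split completely in `L`, and the vectors `(λ_P(x))` of its elements lie in a space of dimension `(p - 1) s`. So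
there are always `(p - 1) r` independent relations, and `(p - 1) (r + t - 1) + 1` if the defect grows by more than
`(p - 1) (t - 1)`. From `(p - 1) (n - 1) + 1` relations one obtains, by Hilbert's theorem 90, `p^n - 1` classes `a` of numbers of
`F` modulo `p`-th powers and powers of `d` which satisfy local conditions everywhere, at the split `v ∣ p` the condition
`λ_v(a) ∈ p λ_v(F_v^*)`. By the law of reciprocity and Chebotarev's theorem the symbols which describe the group of these `a`
are equidistributed over the ensemble, and the mean of the number of the classes is at most `p^r + ε`.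

The plan and the parts `S_…` of the proof (project GK of helper7, with helpers 16, 18, 129, 139, 142, 153, 162, 176, 177, 190 and
the projects LK, LS) are in the library; the assembly, the mean in (1) and the statement are new.
-/

set_option autoImplicit false

namespace Pool.Agent.Results.MP_1f047c_nt.GrossKuzminKummerExtensions

open NumberField IsDedekindDomain Filter Topology

section Ensemble

variable {F : Type} [Field F] [NumberField F]

/-- The order of `a` at `v` modulo `p`. -/
noncomputable def orderMod (p : ℕ) (v : HeightOneSpectrum (𝓞 F)) (a : F) : ZMod p :=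
  -((WithZero.log (v.valuation F a) : ℤ) : ZMod p)

/-- `a` is the `p`-th power of a nonzero element of the completion of `F` at `v`. -/
def PowerAt (p : ℕ) (v : HeightOneSpectrum (𝓞 F)) (a : F) : Prop :=
  a ≠ 0 ∧ ∃ s : v.adicCompletion F, (a : v.adicCompletion F) = s ^ p

/-- `v` lies above a prime number `l ≤ y`. -/
def Small (y : ℕ) (v : HeightOneSpectrum (𝓞 F)) : Prop :=
  ∃ l : ℕ, l.Prime ∧ l ≤ y ∧ (l : 𝓞 F) ∈ v.asIdeal

open Classical in
/-- Among the primes not above prime numbers `≤ y` the order of `d` modulo `p` is `z i` at the prime `q i` and `0` at the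
others; and at the primes above prime numbers `≤ y` the number `d` is equal to `d₀` up to local `p`-th powers. So for
nonzero `z i` and different `q i` the extension `F(d^(1/p))` is ramified, among the primes not above prime numbers
`≤ y`, exactly at the `q i`, and its completions at the other primes are those of `F(d₀^(1/p))`. -/
structure Fits (p y : ℕ) (d₀ : F) {k : ℕ} (z : Fin k → ZMod p) (q : Fin k → HeightOneSpectrum (𝓞 F)) (d : F) :
    Prop where
  ne : d ≠ 0
  ram : ∀ v : HeightOneSpectrum (𝓞 F), ¬ Small y v → orderMod p v d = ∑ i, if q i = v then z i else 0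
  loc : ∀ v : HeightOneSpectrum (𝓞 F), Small y v → PowerAt p v (d / d₀)

/-- The ensemble: the tuples of `k` different primes `q i`, not above prime numbers `≤ y`, of norm `≤ X i`, to which a
`d` belongs. -/
def Ensemble (p y : ℕ) (d₀ : F) {k : ℕ} (z : Fin k → ZMod p) (X : Fin k → ℕ) : Set (Fin k → HeightOneSpectrum (𝓞 F)) :=
  {q | (Function.Injective q ∧ ∀ i, ¬ Small y (q i) ∧ Ideal.absNorm (q i).asIdeal ≤ X i) ∧
    ∃ d, Fits p y d₀ z q d}

end Ensemble

/-- `P X` is true for all large `X 0`, for all `X 1` which are large in terms of `X 0`, …, for all `X (k-1)` which are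
large in terms of the others. -/
def Nested : (k : ℕ) → ((Fin k → ℕ) → Prop) → Prop
  | 0, P => P Fin.elim0
  | k + 1, P => Nested k fun X => ∀ᶠ x : ℕ in atTop, P (Fin.snoc (α := fun _ => ℕ) X x)

/-- `L` is the extension `F(d^(1/p))`, of degree `p`. -/
structure IsKummer (p : ℕ) (F L : Type) [Field F] [Field L] [Algebra F L] (d : F) : Prop where
  deg : Module.finrank F L = p
  npow : ∀ x : F, d ≠ x ^ p
  root : ∃ x : L, x ^ p = algebraMap F L d

section Gross

/-- `Lg` is Iwasawa's `p`-adic logarithm on `ℂ_p`: a homomorphism with `Lg p = 0`, given by the power series of `log (1 + z)`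
for `|z| < 1` (the value at `0` is irrelevant). -/
structure IsIwasawaLog (p : ℕ) [Fact p.Prime] (Lg : ℂ_[p] → ℂ_[p]) : Prop where
  mul : ∀ x y : ℂ_[p], x ≠ 0 → y ≠ 0 → Lg (x * y) = Lg x + Lg y
  prime : Lg ((p : ℕ) : ℂ_[p]) = 0
  ser : ∀ z : ℂ_[p], ‖z‖ < 1 →
    HasSum (fun n : ℕ => (-1 : ℂ_[p]) ^ n * z ^ (n + 1) / ((n : ℂ_[p]) + 1)) (Lg (1 + z))

/-- the primes of `K` above `p` -/
def Above (p : ℕ) (K : Type) [Field K] [NumberField K] : Set (HeightOneSpectrum (𝓞 K)) :=
  {P | (p : 𝓞 K) ∈ P.asIdeal}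

/-- `x` is a `p`-unit of `K`. -/
def IsPUnit (p : ℕ) {K : Type} [Field K] [NumberField K] (x : K) : Prop :=
  x ≠ 0 ∧ ∀ P : HeightOneSpectrum (𝓞 K), P ∉ Above p K → P.valuation K x = 1

variable {p : ℕ} [Fact p.Prime]

/-- The embedding `σ : K → ℂ_p` belongs to the prime `P` of `K`. -/
def BelongsTo {K : Type} [Field K] [NumberField K] (P : HeightOneSpectrum (𝓞 K)) (σ : K →+* ℂ_[p]) : Prop :=
  ∀ x : 𝓞 K, x ∈ P.asIdeal ↔ ‖σ (x : K)‖ < 1

open Classical in
/-- `λ_P(x) = log_p N_(K_P / ℚ_p)(x)`, the sum of the `log_p σ(x)`, `σ` the embeddings which belong to `P` -/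
noncomputable def logNorm (Lg : ℂ_[p] → ℂ_[p]) {K : Type} [Field K] [NumberField K] (P : HeightOneSpectrum (𝓞 K))
    (x : K) : ℂ_[p] :=
  ∑ σ : K →+* ℂ_[p], if BelongsTo P σ then Lg (σ x) else 0

/-- the rank over `ℂ_p` of Gross' matrix `(λ_P(x))`, `P` the primes above `p`, `x` the `p`-units of `K` -/
noncomputable def grossRank (Lg : ℂ_[p] → ℂ_[p]) (K : Type) [Field K] [NumberField K] : ℕ :=
  Module.finrank ℂ_[p] (Submodule.span ℂ_[p]
    {f : Above p K → ℂ_[p] | ∃ x : K, IsPUnit p x ∧ ∀ P : Above p K, f P = logNorm Lg P.1 x})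

/-- the Gross–Kuz'min defect of `K` at `p`: the number of the primes above `p`, minus `1`, minus the rank -/
noncomputable def grossDefect (Lg : ℂ_[p] → ℂ_[p]) (K : Type) [Field K] [NumberField K] : ℤ :=
  (Above p K).ncard - 1 - grossRank Lg K

/-- the Gross–Kuz'min conjecture for the number field `K` and the prime `p` -/
def GrossKuzmin (Lg : ℂ_[p] → ℂ_[p]) (K : Type) [Field K] [NumberField K] : Prop := grossDefect Lg K = 0

end Gross

/-- `β = p^(-r) / (p - 1)`, `r` the number of the complex places of `F` -/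
noncomputable def beta (p : ℕ) (F : Type) [Field F] [NumberField F] : ℝ :=
  (1 / (p : ℝ)) ^ InfinitePlace.nrComplexPlaces F / (p - 1)

section Proof

open Pool.Agent

theorem nested_iff : ∀ (k : ℕ) (P : (Fin k → ℕ) → Prop), Nested k P ↔ Q283.LQ.Nest k P
  | 0, _ => Iff.rfl
  | k + 1, _ => nested_iff k _

theorem log_iff {p : ℕ} [Fact p.Prime] {Lg : ℂ_[p] → ℂ_[p]} (h : IsIwasawaLog p Lg) : W289.SL.IsIwasawaLog p Lg :=
  ⟨h.mul, h.prime, h.ser⟩

theorem rank_eq {p : ℕ} [Fact p.Prime] (Lg : ℂ_[p] → ℂ_[p]) (K : Type) [Field K] [NumberField K] :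
    grossRank Lg K = H575.GK.rk Lg K := rfl

theorem defect_nonneg {p : ℕ} [Fact p.Prime] {Lg : ℂ_[p] → ℂ_[p]} (hL : IsIwasawaLog p Lg) (K : Type) [Field K]
    [NumberField K] : 0 ≤ grossDefect Lg K := by
  have h1 := H575.GK.rk_lt (K := K) (log_iff hL)
  have h2 : grossRank Lg K + 1 ≤ (Above p K).ncard := h1
  unfold grossDefect
  omega

variable {F : Type} [Field F] [NumberField F]

theorem fits_iff {p : ℕ} [Fact p.Prime] {y : ℕ} {d₀ : F} {k : ℕ} {z : Fin k → ZMod p}
    {q : Fin k → HeightOneSpectrum (𝓞 F)} {d : F} : Fits p y d₀ z q d ↔ Q7.LK.Fits p y d₀ z q d := by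
  constructor
  · intro h
    exact ⟨h.ne, h.ram, fun v hv => (Q7.LK.t_CPL p F v _).mpr (h.loc v hv)⟩
  · intro h
    exact ⟨h.ne, h.ram, fun v hv => (Q7.LK.t_CPL p F v _).mp (h.loc v hv)⟩

/-- the complement of the bad set -/
theorem compl_bound {α : Type} {E B G : Set α} (hE : E.Finite) (hB : B ⊆ E) (hG : G ⊆ E) (h : ∀ q ∈ E, q ∈ B ∨ q ∈ G)
    {b : ℝ} (hb : (B.ncard : ℝ) ≤ b * E.ncard) : (1 - b) * E.ncard ≤ (G.ncard : ℝ) := by
  have h1 : E ⊆ B ∪ G := fun q hq => h q hq
  have h2 := Set.ncard_le_ncard h1 ((hE.subset hB).union (hE.subset hG))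
  have h3 := Set.ncard_union_le B G
  have h4 : (E.ncard : ℝ) ≤ B.ncard + G.ncard := by exact_mod_cast h2.trans h3
  have h5 : (1 - b) * (E.ncard : ℝ) = E.ncard - b * E.ncard := by ring
  rw [h5]
  linarith

/-- the field of the `p`-th roots of unity has `(p - 1) / 2` complex places -/
theorem places_ge {p : ℕ} [Fact p.Prime] (hp : p ≠ 2) {ζ : F} (hζ : IsPrimitiveRoot ζ p) :
    (p - 1) / 2 ≤ InfinitePlace.nrComplexPlaces F := by
  have hpp : p.Prime := Fact.out
  have htc : IsTotallyComplex F := Q7.LK.tot_complex hp hζ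
  have h1 := IsTotallyComplex.finrank F
  have h2 : p - 1 ≤ Module.finrank ℚ F := by
    have h3 := minpoly.natDegree_le (A := ℚ) ζ
    rw [← Polynomial.cyclotomic_eq_minpoly_rat hζ hpp.pos, Polynomial.natDegree_cyclotomic,
      Nat.totient_prime hpp] at h3
    exact h3
  omega

theorem beta_le {p : ℕ} [Fact p.Prime] (hp : p ≠ 2) {ζ : F} (hζ : IsPrimitiveRoot ζ p) :
    beta p F ≤ (1 / (p : ℝ)) ^ ((p - 1) / 2) / (p - 1) := by
  have hpp : p.Prime := Fact.out
  have h1 : (1 : ℝ) < p := by exact_mod_cast hpp.one_lt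
  unfold beta
  refine div_le_div_of_nonneg_right ?_ (by linarith)
  refine pow_le_pow_of_le_one (by positivity) ?_ (places_ge hp hζ)
  rw [div_le_one (by linarith)]
  exact h1.le

end Proof

/-- **Main result.** -/
theorem result (p : ℕ) [Fact p.Prime] (hp : p ≠ 2) (Lg : ℂ_[p] → ℂ_[p]) (hLg : IsIwasawaLog p Lg)
    (F : Type) [Field F] [NumberField F] (ζ : F) (hζ : IsPrimitiveRoot ζ p) :
    (∃ y₀ : ℕ, ∀ y, y₀ ≤ y → ∀ d₀ : F, d₀ ≠ 0 →
      (∀ (k : ℕ) (z : Fin k → ZMod p) (q : Fin k → HeightOneSpectrum (𝓞 F)) (d d' : F),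
        Fits p y d₀ z q d → Fits p y d₀ z q d' → ∃ x : F, d = d' * x ^ p) ∧
      ∀ ε : ℝ, 0 < ε → ∃ k₀ : ℕ, ∀ k, k₀ ≤ k → ∀ z : Fin k → ZMod p, (∀ i, z i ≠ 0) → Nested k fun X =>
        (Ensemble p y d₀ z X).Finite ∧ (Ensemble p y d₀ z X).Nonempty ∧
        (∀ t : (Fin k → HeightOneSpectrum (𝓞 F)) → ℕ,
          (∀ q ∈ Ensemble p y d₀ z X, 1 ≤ t q → ∃ d : F, Fits p y d₀ z q d ∧
            ∃ (L : Type) (_ : Field L) (_ : NumberField L) (_ : Algebra F L), IsKummer p F L d ∧
              grossDefect Lg F + (p - 1) * (t q - 1) < grossDefect Lg L) →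
          ∑ᶠ q ∈ Ensemble p y d₀ z X, ((p : ℝ) ^ t q - 1) ≤
            ((1 / (p : ℝ)) ^ InfinitePlace.nrComplexPlaces F + ε) * (Ensemble p y d₀ z X).ncard) ∧
        ({q ∈ Ensemble p y d₀ z X | ∃ d : F, Fits p y d₀ z q d ∧
            ∃ (L : Type) (_ : Field L) (_ : NumberField L) (_ : Algebra F L), IsKummer p F L d ∧
              grossDefect Lg F < grossDefect Lg L}.ncard : ℝ) ≤
          (beta p F + ε) * (Ensemble p y d₀ z X).ncard ∧
        ((GrossKuzmin Lg F ∨ (IsGalois ℚ F ∧ ∀ g h : F ≃ₐ[ℚ] F, g * h = h * g)) →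
          (1 - beta p F - ε) * (Ensemble p y d₀ z X).ncard ≤
            ({q ∈ Ensemble p y d₀ z X | ∀ (d : F) (L : Type) [Field L] [NumberField L] [Algebra F L],
              Fits p y d₀ z q d → IsKummer p F L d → GrossKuzmin Lg L}.ncard : ℝ))) ∧
    beta p F ≤ (1 / (p : ℝ)) ^ ((p - 1) / 2) / (p - 1) := by
  classical
  have hpp : p.Prime := Fact.out
  have hp1 : (1 : ℝ) < p := by exact_mod_cast hpp.one_lt
  have hL := log_iff hLg
  refine ⟨?_, beta_le hp hζ⟩
  obtain ⟨y1, hy1⟩ := H575.GK.meanG p hp Lg hL F ζ hζ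
  obtain ⟨y2, hy2⟩ := Q7.LK.uniq Q7.LK.t_BAS Q7.LK.t_BASE p hp F ζ hζ
  refine ⟨max y1 y2, fun y hy d₀ hd₀ => ⟨fun k z q d d' hd hd' => ?_, fun ε hε => ?_⟩⟩
  · obtain ⟨x, hx⟩ := hy2 y (le_trans (le_max_right _ _) hy) d₀ hd₀ k z q d d' (fits_iff.mp hd) (fits_iff.mp hd')
    refine ⟨x, ?_⟩
    rw [← hx, mul_div_cancel₀ _ hd'.ne]
  obtain ⟨k0, hk0⟩ := hy1 y (le_trans (le_max_left _ _) hy) (H575.GK.Pr p F) (fun v hv => hv) H575.GK.pr_finite
    d₀ hd₀ ε hε
  refine ⟨max k0 1, fun k hk z hz => (nested_iff k _).mpr (Q7.LK.nest_mono k _ _ (fun X hX => ?_)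
    (hk0 k (le_trans (le_max_left _ _) hk) z hz))⟩
  have hk1 : 1 ≤ k := le_trans (le_max_right _ _) hk
  obtain ⟨hfin, hpos, hN⟩ := hX
  have hE : Ensemble p y d₀ z X = Q7.LS.Ens p y d₀ z X := by
    ext q
    simp only [Ensemble, Q7.LS.Ens, Q283.LQ.Box, Set.mem_ofPred_eq, fits_iff]
    rfl
  have hEfin : (Ensemble p y d₀ z X).Finite := by
    rw [hE]
    exact hfin.subset (fun q hq => hq.1)
  rw [← hE] at hpos
  have hmean : ∀ t : (Fin k → HeightOneSpectrum (𝓞 F)) → ℕ,
      (∀ q ∈ Ensemble p y d₀ z X, 1 ≤ t q → ∃ d : F, Fits p y d₀ z q d ∧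
        ∃ (L : Type) (_ : Field L) (_ : NumberField L) (_ : Algebra F L), IsKummer p F L d ∧
          grossDefect Lg F + (p - 1) * (t q - 1) < grossDefect Lg L) →
      ∑ᶠ q ∈ Ensemble p y d₀ z X, ((p : ℝ) ^ t q - 1) ≤
        ((1 / (p : ℝ)) ^ InfinitePlace.nrComplexPlaces F + ε) * (Ensemble p y d₀ z X).ncard := by
    intro t ht
    rw [finsum_mem_eq_finite_toFinset_sum _ hEfin]
    have h1 := hN (hEfin.toFinset.filter fun q => 1 ≤ t q) t (by
      intro q hq
      rw [Finset.mem_filter, Set.Finite.mem_toFinset] at hq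
      refine ⟨hE ▸ hq.1, hq.2, ?_⟩
      obtain ⟨d, hd, L, i1, i2, i3, hK, hdef⟩ := ht q hq.1 hq.2
      refine ⟨d, fits_iff.mp hd, L, i1, i2, i3, ⟨hK.deg, hK.root⟩, ?_⟩
      by_contra hO
      have h2 := H575.GK.rk_ge hp hL hζ (L := L) ⟨hK.deg, hK.root⟩ (fun ⟨x, hx⟩ => hK.npow x hx) hq.2 hO
      have h3 : grossRank Lg F + (Above p L).ncard ≤
          grossRank Lg L + (Above p F).ncard + (p - 1) * (t q - 1) := h2
      have h4 : ((p - 1 : ℕ) : ℤ) = (p : ℤ) - 1 := by
        rw [Nat.cast_sub hpp.one_le]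
        rfl
      have h5 : ((t q - 1 : ℕ) : ℤ) = (t q : ℤ) - 1 := by
        rw [Nat.cast_sub hq.2]
        rfl
      have h6 : ((grossRank Lg F + (Above p L).ncard : ℕ) : ℤ) ≤
          ((grossRank Lg L + (Above p F).ncard + (p - 1) * (t q - 1) : ℕ) : ℤ) := by exact_mod_cast h3
      push_cast at h6
      rw [h4, h5] at h6
      unfold grossDefect at hdef
      linarith)
    rw [← hE] at h1
    refine le_trans (le_of_eq ?_) h1
    rw [Finset.sum_filter]
    refine Finset.sum_congr rfl fun q _ => ?_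
    split_ifs with h
    · rfl
    · have h0 : t q = 0 := by omega
      rw [h0, pow_zero, sub_self]
  have hmain : ({q ∈ Ensemble p y d₀ z X | ∃ d : F, Fits p y d₀ z q d ∧
          ∃ (L : Type) (_ : Field L) (_ : NumberField L) (_ : Algebra F L), IsKummer p F L d ∧
            grossDefect Lg F < grossDefect Lg L}.ncard : ℝ) ≤
        (beta p F + ε) * (Ensemble p y d₀ z X).ncard := by
    set B := {q ∈ Ensemble p y d₀ z X | ∃ d : F, Fits p y d₀ z q d ∧
          ∃ (L : Type) (_ : Field L) (_ : NumberField L) (_ : Algebra F L), IsKummer p F L d ∧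
            grossDefect Lg F < grossDefect Lg L} with hB
    have hBE : B ⊆ Ensemble p y d₀ z X := fun q hq => hq.1
    have h1 := hmean (fun q => if q ∈ B then 1 else 0) (by
      intro q hq h1
      have hqB : q ∈ B := by
        by_contra hc
        rw [if_neg hc] at h1
        omega
      obtain ⟨_, d, hd, L, i1, i2, i3, hK, hdef⟩ := hqB
      refine ⟨d, hd, L, i1, i2, i3, hK, ?_⟩
      rw [if_pos ⟨hq, d, hd, L, i1, i2, i3, hK, hdef⟩]
      simpa using hdef)
    rw [finsum_mem_eq_finite_toFinset_sum _ hEfin] at h1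
    have h2 : ∑ q ∈ hEfin.toFinset, ((p : ℝ) ^ (if q ∈ B then 1 else 0) - 1) = (B.ncard : ℝ) * (p - 1) := by
      have h3 : ∀ q : Fin k → HeightOneSpectrum (𝓞 F), ((p : ℝ) ^ (if q ∈ B then 1 else 0) - 1) =
          if q ∈ B then (p : ℝ) - 1 else 0 := by
        intro q
        split_ifs
        · rw [pow_one]
        · rw [pow_zero, sub_self]
      simp_rw [h3]
      rw [← Finset.sum_filter, Finset.sum_const, nsmul_eq_mul]
      congr 2
      rw [Set.ncard_eq_toFinset_card B (hEfin.subset hBE)]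
      congr 1
      ext q
      simp only [Finset.mem_filter, Set.Finite.mem_toFinset]
      exact ⟨fun h => h.2, fun h => ⟨hBE h, h⟩⟩
    rw [h2] at h1
    have h4 : (0 : ℝ) < (p : ℝ) - 1 := by linarith
    have h5 : (1 : ℝ) ≤ (p : ℝ) - 1 := by
      have h6 : (2 : ℝ) ≤ p := by exact_mod_cast hpp.two_le
      linarith
    have h6 : (B.ncard : ℝ) ≤ ((1 / (p : ℝ)) ^ InfinitePlace.nrComplexPlaces F + ε) *
        (Ensemble p y d₀ z X).ncard / (p - 1) := (le_div_iff₀ h4).mpr h1
    refine h6.trans ?_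
    unfold beta
    have h7 : ((1 / (p : ℝ)) ^ InfinitePlace.nrComplexPlaces F + ε) * (Ensemble p y d₀ z X).ncard / (p - 1) =
        ((1 / (p : ℝ)) ^ InfinitePlace.nrComplexPlaces F / (p - 1) + ε / (p - 1)) *
          (Ensemble p y d₀ z X).ncard := by ring
    rw [h7]
    refine mul_le_mul_of_nonneg_right ?_ (by positivity)
    have h8 : ε / ((p : ℝ) - 1) ≤ ε := div_le_self hε.le h5
    linarith
  refine ⟨hEfin, ?_, hmean, hmain, fun hF => ?_⟩
  · rw [← Set.ncard_pos hEfin]
    exact_mod_cast hpos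
  · have hF' : grossDefect Lg F = 0 := by
      rcases hF with h | ⟨h1, h2⟩
      · exact h
      · have h3 : (Above p F).ncard ≤ grossRank Lg F + 1 := H575.GK.gk_abelian hp hL h1 h2
        have h4 := defect_nonneg hLg F
        unfold grossDefect at h4 ⊢
        omega
    refine le_trans (le_of_eq (by ring)) (compl_bound hEfin (fun q hq => hq.1) (fun q hq => hq.1)
      (fun q hq => ?_) hmain)
    by_cases hc : q ∈ {q ∈ Ensemble p y d₀ z X | ∃ d : F, Fits p y d₀ z q d ∧
          ∃ (L : Type) (_ : Field L) (_ : NumberField L) (_ : Algebra F L), IsKummer p F L d ∧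
            grossDefect Lg F < grossDefect Lg L}
    · exact Or.inl hc
    · refine Or.inr ⟨hq, ?_⟩
      intro d L _ _ _ hd hK
      by_contra hdef
      refine hc ⟨hq, d, hd, L, inferInstance, inferInstance, inferInstance, hK, ?_⟩
      rw [hF']
      exact lt_of_le_of_ne (defect_nonneg hLg L) (fun h => hdef h.symm)

end Pool.Agent.Results.MP_1f047c_nt.GrossKuzminKummerExtensions
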