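import Mathlib
import Pool.Agent.H443.VF.App
import Pool.Graph.R_seed8.W245.PB.Gen

/-!
# Singular matrices of `p`-adic logarithms: adjoining the logarithms of all conjugates of almost all
integers of number fields

Let `K_1, ..., K_k` be number fields (not necessarily distinct) and let `b_j` be a basis of `K_j` over
`ℚ`. For vectors `x_j` of integers put `α_j = ∑ x_ji b_ji ∈ K_j`; if `b_j` is an integral basis these
are the integers of `K_j`. Let `V` be a rational space of dimension at most `m` in the algebraic closure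
`Ω_p` of `ℚ_p` for which the assertion of Q2 holds, for all sizes of the matrices (for example `V = 0`, or any
space of `p`-adic logarithms of algebraic numbers of dimension at most two; the elements of `V` need not
be logarithms). We show that for almost all `(x_1, ..., x_k)` the space

  `V' = V + ∑ ℚ log_p σ(α_j)`,  `σ` ALL the embeddings of `K_j` into `Ω_p`, `j = 1, ..., k`,

has dimension `dim V + [K_1 : ℚ] + ... + [K_k : ℚ]`, and that Q2 holds for all the matrices, of all sizes,
with entries in `V'`. The number of exceptional `(x_1, ..., x_k)` with `|x_ji| ≤ N_j` is at most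
`ε ∏ (2 N_j + 1) ^ [K_j : ℚ]` if all the `N_j` are at least `N₀`, and `N₀` depends neither on `V`, nor on the
prime `p`, nor on the ratios of the `N_j`.

Q2 implies the conjecture of Leopoldt, which concerns the determinants of the `p`-adic logarithms of all
conjugates of units; the result settles all the matrices of logarithms of all the conjugates of
almost all integers.

The proof.
* `VF.Cube`, `VF.Wide`: a large cube of vectors of logarithms with linearly independent entries has a vertex
  which satisfies no polynomial relation of degree `≤ D` with coefficients in a given space of dimension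
  `≤ n` over the algebraic numbers, with `n` arbitrary (evaluation determinants, the hyperplane case of
  the theorem of Waldschmidt and Roy, the theorems of Baker and Brumer).
* `VF.Val`: the conjugates of the ratios of the generators in a multiplicative cube of integers of `K`
  (constructed in `NF.Cub`) are multiplicatively independent in each field of characteristic zero, also
  modulo a prime number.
* `VF.Sys`, `VF.Tup`: almost all integers, and almost all tuples, for an abstract logarithm; `VF.CInst`: the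
  complex logarithm and the Iwasawa logarithm.
* `VF.Sing`, `VF.App`: a determinant which vanishes is identically zero as a polynomial in the new
  logarithms, and identically singular families of matrices are reduced to `V` (`Y921.SR.Pencil`).
-/

set_option autoImplicit false

open NumberField Module

namespace Pool.Agent.Results.MP_1f047c_nt.PadicConjugatesInNumberFields

/-- Every singular square matrix, of any size, with entries in `V` satisfies the conclusion of Q2. -/
def Good {p : ℕ} [Fact p.Prime] (V : Submodule ℚ (PadicAlgCl p)) : Prop :=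
  ∀ n : ℕ, 1 ≤ n → ∀ M : Matrix (Fin n) (Fin n) (PadicAlgCl p), (∀ i j, M i j ∈ V) → M.det = 0 →
    ∃ w v : Fin n → ℚ, w ≠ 0 ∧ v ≠ 0 ∧
      ∑ i, ∑ j, (w i : PadicAlgCl p) * M i j * (v j : PadicAlgCl p) = 0

/-- `L` is the Iwasawa `p`-adic logarithm on the algebraic closure of `ℚ_p`. -/
def IsIwasawaLog (p : ℕ) [Fact p.Prime] (L : PadicAlgCl p → PadicAlgCl p) : Prop :=
  (∀ x y : PadicAlgCl p, x ≠ 0 → y ≠ 0 → L (x * y) = L x + L y) ∧
  L ((p : ℕ) : PadicAlgCl p) = 0 ∧
  ∀ z : PadicAlgCl p, ‖z‖ < 1 →
    HasSum (fun n : ℕ => (-1 : PadicAlgCl p) ^ n * z ^ (n + 1) / ((n : PadicAlgCl p) + 1))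
      (L (1 + z))

theorem good_iff {p : ℕ} [Fact p.Prime] (V : Submodule ℚ (PadicAlgCl p)) :
    Good V ↔ Pool.Agent.Y921.SR.ZeroProp V := by
  have h : ∀ (N : ℕ) (M : Matrix (Fin N) (Fin N) (PadicAlgCl p)) (w v : Fin N → ℚ),
      ∑ i, ∑ j, (w i : PadicAlgCl p) * M i j * (v j : PadicAlgCl p) =
        ∑ i, ∑ j, (w i * v j) • M i j := by
    intro N M w v
    refine Finset.sum_congr rfl fun i _ => Finset.sum_congr rfl fun j _ => ?_
    rw [Rat.smul_def]
    push_cast
    ring
  unfold Good Pool.Agent.Y921.SR.ZeroProp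
  simp only [h]

theorem small_padic {p : ℕ} [Fact p.Prime] {L : PadicAlgCl p → PadicAlgCl p}
    (hL : Pool.Agent.W245.PB.IsIwasawaLog p L) (V : Submodule ℚ (PadicAlgCl p))
    [Module.Finite ℚ V] (h2 : finrank ℚ V ≤ 2)
    (hV : ∀ z ∈ V, ∃ α : PadicAlgCl p, α ≠ 0 ∧ IsAlgebraic ℚ α ∧ z = L α) : Good V := by
  apply Pool.Agent.W245.PB.gen_small V _ h2
  intro x hx y hy hli halg
  have h1 := hL.indep_of_indep ![x, y] (by
    intro i
    fin_cases i
    · exact hV x hx
    · exact hV y hy) hli
  have hy0 : y ≠ 0 := by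
    have := hli.ne_zero 1
    simpa using this
  rw [LinearIndependent.pair_iff] at h1
  have h3 := h1 (-1) ⟨x / y, mem_algebraicClosure_iff.2 halg⟩ (by
    rw [Algebra.smul_def, Algebra.smul_def]
    change algebraMap _ (PadicAlgCl p) (-1) * x + (x / y) * y = 0
    rw [map_neg, map_one]
    field_simp
    ring)
  exact absurd h3.1 (by simp)

/-- The element `∑ x_i b_i` of the number field `K`. -/
noncomputable def elt {K : Type} [Field K] [NumberField K] {ι : Type} [Fintype ι] (b : Module.Basis ι ℚ K)
    (x : ι → ℤ) : K := ∑ i, (x i : K) * b i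

/-- The space generated by `V` and by the logarithms `L σ(α_j)`, where `σ` runs through all the
embeddings of `K j` into the algebraic closure of `ℚ_p`, for all `j`. -/
noncomputable def Adj {p : ℕ} [Fact p.Prime] (L : PadicAlgCl p → PadicAlgCl p) {k : ℕ} {K : Fin k → Type}
    [∀ j, Field (K j)] (V : Submodule ℚ (PadicAlgCl p)) (α : ∀ j, K j) :
    Submodule ℚ (PadicAlgCl p) :=
  V ⊔ Submodule.span ℚ (Set.range fun z : Σ j : Fin k, (K j →+* PadicAlgCl p) => L (z.2 (α z.1)))

/-- The tuples of nonzero vectors of integers, the entries of `x j` being bounded by `N j`. -/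
def Box {k : ℕ} (ι : Fin k → Type) (N : Fin k → ℕ) : Set (∀ j, ι j → ℤ) :=
  {x | ∀ j, x j ≠ 0 ∧ ∀ i, |x j i| ≤ (N j : ℤ)}

/-- `V` is a space of `p`-adic logarithms of algebraic numbers. -/
def OfLogs {p : ℕ} [Fact p.Prime] (L : PadicAlgCl p → PadicAlgCl p)
    (V : Submodule ℚ (PadicAlgCl p)) : Prop :=
  ∀ z ∈ V, ∃ α : PadicAlgCl p, α ≠ 0 ∧ IsAlgebraic ℚ α ∧ z = L α

/-- **Main result.** -/
theorem result (k m : ℕ) (K : Fin k → Type) [∀ j, Field (K j)] [∀ j, NumberField (K j)]
    (ι : Fin k → Type) [∀ j, Fintype (ι j)] (b : ∀ j, Module.Basis (ι j) ℚ (K j))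
    (ε : ℝ) (hε : 0 < ε) :
    ∃ N₀ : ℕ, ∀ N : Fin k → ℕ, (∀ j, N₀ ≤ N j) →
      ∀ (p : ℕ) [Fact p.Prime] (L : PadicAlgCl p → PadicAlgCl p), IsIwasawaLog p L →
      ∀ V : Submodule ℚ (PadicAlgCl p), Module.Finite ℚ V → finrank ℚ V ≤ m →
        (Good V ∨ (finrank ℚ V ≤ 2 ∧ OfLogs L V)) →
        ({x ∈ Box ι N | ¬ (finrank ℚ (Adj L V fun j => elt (b j) (x j)) =
              finrank ℚ V + ∑ j, finrank ℚ (K j) ∧
            Good (Adj L V fun j => elt (b j) (x j)))}.ncard : ℝ) ≤
          ε * ∏ j, (2 * (N j : ℝ) + 1) ^ finrank ℚ (K j) := by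
  classical
  obtain ⟨N₀, hN₀⟩ := Pool.Agent.H443.VF.ext K ι b m ε hε
  refine ⟨N₀, fun N hN => ?_⟩
  intro p _ L hL V hVf hVm hV
  have hL' : Pool.Agent.W245.PB.IsIwasawaLog p L := ⟨hL.1, hL.2.1, hL.2.2⟩
  have hV' : Good V := hV.elim id fun h => small_padic hL' V h.1 h.2
  have hsub : {x ∈ Box ι N | ¬ (finrank ℚ (Adj L V fun j => elt (b j) (x j)) =
              finrank ℚ V + ∑ j, finrank ℚ (K j) ∧
            Good (Adj L V fun j => elt (b j) (x j)))} ⊆
      ((Fintype.piFinset fun j => Pool.Agent.H443.VF.box (ι j) (N j) :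
        Finset (∀ j, ι j → ℤ)) : Set (∀ j, ι j → ℤ)) := by
    intro x hx
    rw [Finset.mem_coe, Fintype.mem_piFinset]
    intro j
    rw [Pool.Agent.H443.VF.mem_box]
    exact (hx.1 j).2
  have hfin := (Finset.finite_toSet _).subset hsub
  rw [Set.ncard_eq_toFinset_card _ hfin]
  refine hN₀ N hN (PadicAlgCl p) (Pool.Agent.H443.VF.pSys hL') ℚ
    (fun c => isAlgebraic_algebraMap c) V hVf hVm _ ?_ ?_
  · intro x hx
    exact Finset.mem_coe.1 (hsub ((Set.Finite.mem_toFinset _).1 hx))
  · intro x hx
    have hx' := (Set.Finite.mem_toFinset _).1 hx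
    refine ⟨fun j => (hx'.1 j).1, fun z => L (z.2 (elt (b z.1) (x z.1))), fun z => ⟨0, ?_⟩,
      fun h => hx'.2 ⟨h.1, (good_iff _).2 (h.2.1 ((good_iff V).1 hV'))⟩⟩
    show _ = L _ + _
    rw [Int.cast_zero, zero_mul, add_zero]
    rfl

end Pool.Agent.Results.MP_1f047c_nt.PadicConjugatesInNumberFields
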